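import Pool.Agent.Dilation.Final

/-!
# No dense `SL₂(ℝ)`-orbit in a component of the triangulable locus of a stratum
-/

namespace Pool.Agent.Results.MP_55f3b9_an.CrossRatio

open Pool.Agent.Dilation

/-- In the stratum of dilation surfaces of genus `4` with one cone point of angle `14 π`, some
connected component of the triangulable locus contains no dense `SL₂(ℝ)`-orbit. -/
theorem result :
    (∃ t₀ : Moduli 4 {14 * Real.pi}, ∀ t ∈ connectedComponent t₀,
      closure (orbit t) ≠ connectedComponent t₀) ∧
    ¬ DenseOrbits :=
  Pool.Agent.Dilation.main

end Pool.Agent.Results.MP_55f3b9_an.CrossRatio
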